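import Pool.Agent.H22.FOT.Defs2

open MeasureTheory unitInterval Set Filter Topology

namespace Pool.FOT

open Pool.Agent.H99.LowerTail

namespace CybAux

lemma pN_nonneg {Ω : Type} [MeasurableSpace Ω] (μ : Measure Ω) (f : Ω → Ω → ℝ)
    (l : List (Ω → ℝ)) : 0 ≤ pN μ f l := integral_nonneg fun _ => sq_nonneg _

lemma wok_init {Ω : Type} [MeasurableSpace Ω] {l : List (Ω → ℝ)} {τ : Ω → ℝ}
    (h : WOk (l ++ [τ])) : WOk l ∧ WOk [τ] :=
  ⟨fun σ' h' => h σ' (by simp [h']), fun σ' h' => h σ' (by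
    simp only [List.mem_singleton] at h'
    simp [h'])⟩

lemma pN_le {Ω : Type} [MeasurableSpace Ω] (hNLE : NLEStmt) (hSCH : SCHStmt) (μ : Measure Ω)
    [IsProbabilityMeasure μ] (f : Ω → Ω → ℝ)
    (κ : ℝ) (hf : ∀ x y, f x y = f y x) (hm : Measurable (fun z : Ω × Ω => f z.1 z.2))
    (hb : ∀ x y, |f x y| ≤ 1) (hκ : ∀ x, ∫ y, |f x y| ∂μ ≤ κ) (r k : ℕ) :
    ∀ l : List (Ω → ℝ), WOk l → l.length = (r - 1) + k →
      pN μ f l ≤ (κ ^ k) ^ 2 * cyT μ f r := by
  induction k with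
  | zero =>
    intro l hl hlen
    have h := hNLE Ω μ f hf hm hb l hl
    rw [hlen] at h
    simpa [cyT] using h
  | succ k ih =>
    intro l hl hlen
    rcases List.eq_nil_or_concat l with h0 | ⟨l0, τ, rfl⟩
    · subst h0
      simp at hlen
    · rw [List.concat_eq_append] at hl hlen ⊢
      obtain ⟨h1, h2⟩ := wok_init hl
      have h3 : l0.length = (r - 1) + k := by
        rw [List.length_append, List.length_singleton] at hlen
        omega
      have h4 := hSCH Ω μ f κ hf hm hb hκ l0 τ h1 h2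
      refine h4.trans ?_
      have h5 := mul_le_mul_of_nonneg_left (ih l0 h1 h3) (sq_nonneg κ)
      refine h5.trans (le_of_eq ?_)
      ring

end CybAux

open CybAux

theorem t_cyb (hCYI : CYIStmt) (hNLE : NLEStmt) (hSCH : SCHStmt) : CYBStmt := by
  intro Ω _ μ _ f κ hf hm hb hκ n r hr hrn τ hτ1 hτ2
  have hne : Nonempty Ω := by
    by_contra h
    rw [not_nonempty_iff] at h
    have h1 : μ = 0 := by
      apply Measure.eq_zero_of_isEmpty
    exact IsProbabilityMeasure.ne_zero μ h1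
  have hκ0 : 0 ≤ κ := by
    obtain ⟨x⟩ := hne
    exact (integral_nonneg fun y => abs_nonneg _).trans (hκ x)
  obtain ⟨l, l', hl, hl', hla, hlb, hcs⟩ := hCYI Ω μ f hf hm hb n (r - 1)
    ((r - 1) + (n + 3 - 2 * r)) (by omega) τ hτ1 hτ2
  have h1 := pN_le hNLE hSCH μ f κ hf hm hb hκ r 0 l hl (by simpa using hla)
  have h2 := pN_le hNLE hSCH μ f κ hf hm hb hκ r (n + 3 - 2 * r) l' hl' hlb
  have hT : 0 ≤ cyT μ f r := pN_nonneg _ _ _
  rw [pow_zero, one_pow, one_mul] at h1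
  have h3 : cyc μ f n τ ^ 2 ≤ (κ ^ (n + 3 - 2 * r) * cyT μ f r) ^ 2 := by
    refine hcs.trans ?_
    have h4 := mul_le_mul h1 h2 (pN_nonneg μ f l') hT
    refine h4.trans (le_of_eq ?_)
    ring
  exact abs_le_of_sq_le_sq h3 (mul_nonneg (pow_nonneg hκ0 _) hT)

end Pool.FOT
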