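import Pool.Agent.H22.FOT.Defs2

open MeasureTheory unitInterval Set Filter Topology

namespace Pool.FOT

open Pool.Agent.H99.LowerTail

/-- The phase ratio of `H` at `p`: the infimum of the ratios `c` in `(0, 1]` such that the constant
graphon `c p` is a minimizer. -/
noncomputable def phaseRatio {V : Type} [Fintype V] (H : SimpleGraph V) (p : ℝ) : ℝ :=
  sInf {c : ℝ | 0 < c ∧ c ≤ 1 ∧ IsMinimizer H p (c * p)}

/-- Final statement in terms of `phaseRatio`. -/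
def FinStmt : Prop :=
  ∀ (V : Type) [Fintype V] (H : SimpleGraph V), H ≠ ⊥ →
    (∀ p ∈ Ioo (0 : ℝ) 1, phaseRatio H p < 1) ∧
    (∀ p ∈ Ioo (0 : ℝ) 1, 0 < phaseRatio H p → IsMinimizer H p (phaseRatio H p * p) ∧
      ¬ IsUniqueMinimizer H p (phaseRatio H p * p)) ∧
    (∀ p q1 : ℝ, 0 < q1 → q1 ≤ p → p < 1 → ∃ ε > 0, ∀ q, q1 ≤ q → q ≤ p → ∀ W : Graphon,
      homDensity H W ≤ q ^ numEdges H → cost p W ≤ relEnt p q →
      (∀ᵐ z : I × I, W z.1 z.2 = q) ∨ ε < ∫ z : I × I, (W z.1 z.2 - q) ^ 2) ∧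
    (¬ H.Colorable 2 → (∀ p ∈ Ioo (0 : ℝ) 1, 0 < phaseRatio H p) ∧
      StrictMonoOn (phaseRatio H) (Ioo 0 1) ∧
      StrictAntiOn (fun p => (1 - p) * phaseRatio H p) (Ioo 0 1)) ∧
    (Odd H.girth → Tendsto (phaseRatio H) (𝓝[<] 1) (𝓝 1)) ∧
    (Even H.girth → ∃ q0 < 1, ∀ p ∈ Ioo (0 : ℝ) 1, phaseRatio H p * p ≤ q0)

lemma sInf_set {r : ℝ} (h0 : 0 ≤ r) (h1 : r < 1) : sInf {c : ℝ | 0 < c ∧ c ≤ 1 ∧ r ≤ c} = r := by
  apply le_antisymm
  · refine le_of_forall_pos_le_add fun ε hε => ?_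
    have hb : BddBelow {c : ℝ | 0 < c ∧ c ≤ 1 ∧ r ≤ c} := ⟨0, fun c hc => hc.1.le⟩
    refine (csInf_le hb (a := min (r + ε) 1) ⟨lt_min (by linarith) one_pos, min_le_right _ _,
      le_min (by linarith) h1.le⟩).trans (min_le_left _ _)
  · exact le_csInf ⟨1, one_pos, le_rfl, h1.le⟩ fun c hc => hc.2.2

theorem t_fin (h : MN2Stmt) : FinStmt := by
  intro V _ H hH
  obtain ⟨ρ, h1, h2, h3, h4, h5, h6⟩ := h V H hH
  have hρ : ∀ p ∈ Ioo (0 : ℝ) 1, phaseRatio H p = ρ p := by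
    intro p hp
    have e : {c : ℝ | 0 < c ∧ c ≤ 1 ∧ IsMinimizer H p (c * p)} =
        {c : ℝ | 0 < c ∧ c ≤ 1 ∧ ρ p ≤ c} := by
      ext c
      constructor
      · rintro ⟨a, b, d⟩
        refine ⟨a, b, ?_⟩
        have := ((h2 p (c * p) (mul_pos a hp.1) (mul_le_of_le_one_left hp.1.le b) hp.2).1).1 d
        exact le_of_mul_le_mul_right this hp.1
      · rintro ⟨a, b, d⟩
        exact ⟨a, b, ((h2 p (c * p) (mul_pos a hp.1) (mul_le_of_le_one_left hp.1.le b)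
          hp.2).1).2 (mul_le_mul_of_nonneg_right d hp.1.le)⟩
    rw [phaseRatio, e]
    exact sInf_set (h1 p hp).1 (h1 p hp).2
  refine ⟨fun p hp => by rw [hρ p hp]; exact (h1 p hp).2, fun p hp hpos => ?_, h3, fun hc => ?_,
    fun ho => ?_, fun he => ?_⟩
  · rw [hρ p hp] at hpos ⊢
    have h7 := h2 p (ρ p * p) (mul_pos hpos hp.1)
      (mul_le_of_le_one_left hp.1.le (h1 p hp).2.le) hp.2
    exact ⟨h7.1.2 le_rfl, fun hu => lt_irrefl _ (h7.2.1 hu)⟩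
  · obtain ⟨a, b, c⟩ := h4 hc
    refine ⟨fun p hp => by rw [hρ p hp]; exact a p hp, fun p hp p' hp' hpp => ?_,
      fun p hp p' hp' hpp => ?_⟩
    · rw [hρ p hp, hρ p' hp']
      exact b hp hp' hpp
    · show (1 - p') * phaseRatio H p' < (1 - p) * phaseRatio H p
      rw [hρ p hp, hρ p' hp']
      exact c hp hp' hpp
  · refine (h5 ho).congr' ?_
    have : Ioo (0 : ℝ) 1 ∈ 𝓝[<] (1 : ℝ) := Ioo_mem_nhdsLT one_pos
    filter_upwards [this] with p hp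
    exact (hρ p hp).symm
  · obtain ⟨q0, hq0, hq⟩ := h6 he
    exact ⟨q0, hq0, fun p hp => by rw [hρ p hp]; exact hq p hp⟩

end Pool.FOT
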