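import Pool.Agent.H22.FOT.Defs2
import Pool.Agent.H22.FOT.LOC

open MeasureTheory unitInterval Set Filter Topology

namespace Pool.FOT

open Pool.Agent.H99.LowerTail LocAux

namespace LsdAux

lemma mean_le_one (W : Graphon) : mean W ≤ 1 := by
  have hi : Integrable (fun z : I × I => W z.1 z.2) :=
    integrable_comp (f := fun x => x) continuous_id W
  have h := integral_mono hi (integrable_const (1 : ℝ)) fun z => W.le_one' z.1 z.2
  simpa [mean] using h

lemma nsq_mean_le (W : Graphon) : nsq W (mean W) ≤ mean W - mean W ^ 2 := by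
  set m := mean W with hm
  have hi : Integrable (fun z : I × I => W z.1 z.2) :=
    integrable_comp (f := fun x => x) continuous_id W
  have hi2 : Integrable (fun z : I × I => (W z.1 z.2 - m) ^ 2) :=
    integrable_comp (f := fun x => (x - m) ^ 2) (by fun_prop) W
  have hi3 : Integrable (fun z : I × I => (1 - 2 * m) * W z.1 z.2 + m ^ 2) :=
    (hi.const_mul _).add (integrable_const _)
  have h : nsq W m ≤ ∫ z : I × I, ((1 - 2 * m) * W z.1 z.2 + m ^ 2) := by
    refine integral_mono hi2 hi3 fun z => ?_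
    have h1 := W.nonneg' z.1 z.2
    have h2 := W.le_one' z.1 z.2
    show (W z.1 z.2 - m) ^ 2 ≤ (1 - 2 * m) * W z.1 z.2 + m ^ 2
    nlinarith
  have h2 : ∫ z : I × I, ((1 - 2 * m) * W z.1 z.2 + m ^ 2) = (1 - 2 * m) * m + m ^ 2 := by
    rw [integral_add (hi.const_mul _) (integrable_const _), integral_const_mul]
    simp [hm, mean]
  rw [h2] at h
  linarith

lemma lsdFin {X b N g0 C e M1 M2 η2 R1 S D0 D1 : ℝ} (hb : 0 ≤ b) (he : 0 ≤ e)
    (h1 : X + e * M1 * (-2 * R1 - b ^ 2) ≤ D0)
    (h2 : 2 * e * M1 * R1 + M2 * η2 * b ≤ S)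
    (h3 : D0 + S - C * (b * (b + N)) ≤ D1)
    (hM1 : M1 ≤ 1) (hg : g0 ≤ M2 * η2) (hs : e * b + C * (b + N) ≤ g0) : X ≤ D1 := by
  have a1 : e * M1 * b ^ 2 ≤ e * b * b := by
    have : e * b ^ 2 * M1 ≤ e * b ^ 2 * 1 := mul_le_mul_of_nonneg_left hM1 (by positivity)
    nlinarith
  have a2 : g0 * b ≤ M2 * η2 * b := mul_le_mul_of_nonneg_right hg hb
  have a3 := mul_le_mul_of_nonneg_right hs hb
  nlinarith

end LsdAux

open LsdAux

theorem t_lsd (hRG2 : RG2Stmt) (hMTC : MTCStmt) (hGN2 : GN2Stmt) (hMRL : MRLStmt)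
    (hRWL : RWLStmt) (hROW : ROWStmt) (hBAD : BADStmt) : LSDStmt := by
  intro V _ H hev
  by_cases hd : ∃ v, 2 ≤ dg H v
  swap
  · push Not at hd
    exact ⟨1, one_pos, fun W _ => (hMTC V H (fun v => by have := hd v; omega) W).ge⟩
  obtain ⟨κ0, hκ0, hreg⟩ := hRG2 V H hev hd
  set e := numEdges H with hedef
  set κ1 : ℝ := min κ0 1 with hκ1
  have hκ1pos : 0 < κ1 := lt_min hκ0 one_pos
  have hκ1le : κ1 ≤ 1 := min_le_right _ _
  set η : ℝ := κ1 / 2 with hη
  have hη0 : 0 < η := by positivity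
  set C : ℝ := ((Fintype.card V + 1 : ℕ) : ℝ) ^ 3 * (e + 1) with hC
  have hCnn : 0 ≤ C := by positivity
  set g0 : ℝ := (1 / 2) ^ e * η ^ 2 with hg0
  have hg0pos : 0 < g0 := by positivity
  set δa : ℝ := η ^ 2 * g0 / (2 * (e + C + 1)) with hδa
  set δb : ℝ := (g0 / (2 * (C + 1))) ^ 2 with hδb
  have hδapos : 0 < δa := by positivity
  have hδbpos : 0 < δb := by positivity
  refine ⟨min (min (1 / 2) (κ1 / 4)) (min δa δb), by positivity, fun W hmean => ?_⟩
  set m := mean W with hm
  set δ : ℝ := 1 - m with hδ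
  have hδle : δ ≤ min (min (1 / 2) (κ1 / 4)) (min δa δb) := by linarith
  have hδ1 : δ ≤ 1 / 2 := hδle.trans ((min_le_left _ _).trans (min_le_left _ _))
  have hδ2 : δ ≤ κ1 / 4 := hδle.trans ((min_le_left _ _).trans (min_le_right _ _))
  have hδ3 : δ ≤ δa := hδle.trans ((min_le_right _ _).trans (min_le_left _ _))
  have hδ4 : δ ≤ δb := hδle.trans ((min_le_right _ _).trans (min_le_right _ _))
  have hm1 : m ≤ 1 := mean_le_one W
  have hδnn : 0 ≤ δ := by linarith
  have hmhalf : 1 / 2 ≤ m := by linarith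
  have hm0 : 0 < m := by linarith
  have hq : m ∈ Icc (0 : ℝ) 1 := ⟨hm0.le, hm1⟩
  have hnsq : nsq W m ≤ δ := by
    have := nsq_mean_le W
    rw [← hm] at this
    nlinarith
  have hnsq_nn : 0 ≤ nsq W m := integral_nonneg fun z => sq_nonneg _
  obtain ⟨hB, hb1, -, -, -⟩ := hBAD W m hq η hη0
  set B : Set I := {x : I | η < |rowAv W x - m|} with hBdef
  set b : ℝ := volume.real B with hb
  have hbnn : 0 ≤ b := measureReal_nonneg
  set Wt := repl W m hq B hB with hWt
  set N := Real.sqrt (nsq W m) with hNdef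
  have hNnn : 0 ≤ N := Real.sqrt_nonneg _
  have hN2 : N ^ 2 = nsq W m := Real.sq_sqrt hnsq_nn
  -- RG2
  have hsym : ∀ x y, Wt x y - m = Wt y x - m := fun x y => by rw [Wt.symm' x y]
  have hfok : FOk (volume : Measure I) (fun x y => Wt x y - m) (η + 2 * (1 - m)) :=
    { symm := hsym
      meas := Wt.measurable'.sub_const m
      bdd := fun x y => by
        rw [abs_le]
        constructor
        · linarith [Wt.nonneg' x y, hq.2]
        · linarith [Wt.le_one' x y, hq.1]
      row := hRWL W m hq η hη0 hB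
      le := by linarith }
  have hκle : η + 2 * (1 - m) ≤ κ0 := by
    have : κ1 ≤ κ0 := min_le_left _ _
    linarith
  have h1 := hreg I volume m (fun x y => Wt x y - m) _ hfok (fun x y => by rw [hsym x y])
    hmhalf hm1 hκle
  have hregd : sDens (volume : Measure I) (edges H) (fun x y => m + (Wt x y - m))
      (fun x y => by rw [hsym x y]) = homDensity H Wt := by
    rw [homDensity_eq]
    congr 1
    funext x y
    ring
  rw [hregd] at h1
  -- MRL
  have h2 := hMRL W m hq B hB
  rw [← hm, sub_self, zero_sub] at h2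
  set R1 : ℝ := ∫ t in B, (rowAv W t - m) with hR1
  have h1' : m ^ e + e * m ^ (e - 1) * (-2 * R1 - b ^ 2) ≤ homDensity H Wt := by
    refine le_trans ?_ h1
    have h3 : 0 ≤ (e : ℝ) * m ^ (e - 1) := by positivity
    have h4 : -2 * R1 - b ^ 2 ≤ ∫ z : I × I, (Wt z.1 z.2 - m) := by
      refine le_trans (le_of_eq ?_) h2
      ring
    have h5 := mul_le_mul_of_nonneg_left h4 h3
    have h6 : ∫ z : I × I, (Wt z.1 z.2 - m) ∂((volume : Measure I).prod volume) =
      ∫ z : I × I, (Wt z.1 z.2 - m) := rfl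
    rw [h6]
    linarith
  -- ROW
  have h3 := hROW V H W m hq B hB N hNnn hN2.ge
  rw [← hedef] at h3
  -- GN2 integrated
  have hiS : Integrable (fun t => ∑ v : V, m ^ (e - dg H v) * (rowAv W t ^ dg H v - m ^ dg H v))
      (volume.restrict B) := by
    refine integrable_finsetSum _ fun v _ => ?_
    exact ((integrable_of_cont (continuous_pow (dg H v)) W B).sub
      (integrable_const _)).const_mul _
  have hi1 : Integrable (fun t => rowAv W t - m) (volume.restrict B) :=
    (integrable_of_cont continuous_id W B).sub (integrable_const _)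
  have h4 : 2 * e * m ^ (e - 1) * R1 + m ^ (e - 2) * η ^ 2 * b ≤
      ∑ v : V, m ^ (e - dg H v) * (∫ t in B, (rowAv W t ^ dg H v - m ^ dg H v)) := by
    have h5 : ∫ t in B, (2 * e * m ^ (e - 1) * (rowAv W t - m) + m ^ (e - 2) * η ^ 2) ≤
        ∫ t in B, (∑ v : V, m ^ (e - dg H v) * (rowAv W t ^ dg H v - m ^ dg H v)) := by
      refine setIntegral_mono_on ((hi1.const_mul _).add (integrable_const _)) hiS hB
        fun t ht => ?_
      have h6 := hGN2 V H hd m (rowAv W t) hq.1 hq.2 (rowAv_mem W t).1 (rowAv_mem W t).2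
      rw [← hedef] at h6
      refine le_trans ?_ h6
      have h7 : η < |rowAv W t - m| := ht
      have h8 : η ^ 2 ≤ (rowAv W t - m) ^ 2 := by
        rw [← sq_abs (rowAv W t - m)]
        exact pow_le_pow_left₀ hη0.le h7.le 2
      have h9 := mul_le_mul_of_nonneg_left h8 (pow_nonneg hm0.le (e - 2))
      linarith
    have e1 : ∫ t in B, (2 * e * m ^ (e - 1) * (rowAv W t - m) + m ^ (e - 2) * η ^ 2) =
        2 * e * m ^ (e - 1) * R1 + m ^ (e - 2) * η ^ 2 * b := by
      rw [integral_add (hi1.const_mul _) (integrable_const _), integral_const_mul,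
        setIntegral_const, smul_eq_mul]
      ring
    have e2 : ∫ t in B, (∑ v : V, m ^ (e - dg H v) * (rowAv W t ^ dg H v - m ^ dg H v)) =
        ∑ v : V, m ^ (e - dg H v) * (∫ t in B, (rowAv W t ^ dg H v - m ^ dg H v)) := by
      rw [integral_finsetSum]
      · simp only [integral_const_mul]
      · intro v _
        exact ((integrable_of_cont (continuous_pow (dg H v)) W B).sub
          (integrable_const _)).const_mul _
    rw [e1, e2] at h5
    exact h5
  -- the constants
  have hb2 : b ≤ δ / η ^ 2 := by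
    rw [le_div_iff₀ (by positivity)]
    exact hb1.trans hnsq
  have hden : 0 < (e : ℝ) + C + 1 := by positivity
  have hsb : (e + C) * b ≤ g0 / 2 := by
    have h5 : b ≤ δa / η ^ 2 := hb2.trans (div_le_div_of_nonneg_right hδ3 (by positivity))
    have h6 : δa / η ^ 2 = g0 / (2 * (e + C + 1)) := by
      rw [hδa]
      field_simp
    rw [h6, le_div_iff₀ (by positivity)] at h5
    nlinarith
  have hsN : C * N ≤ g0 / 2 := by
    have h5 : N ≤ g0 / (2 * (C + 1)) := by
      have h6 : nsq W m ≤ (g0 / (2 * (C + 1))) ^ 2 := hnsq.trans hδ4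
      exact (Real.sqrt_le_sqrt h6).trans (le_of_eq (Real.sqrt_sq (by positivity)))
    rw [le_div_iff₀ (by positivity)] at h5
    nlinarith
  have hs : (e : ℝ) * b + C * (b + N) ≤ g0 := by linarith
  have hM1 : m ^ (e - 1) ≤ 1 := pow_le_one₀ hm0.le hm1
  have hgM : g0 ≤ m ^ (e - 2) * η ^ 2 := by
    rw [hg0]
    refine mul_le_mul_of_nonneg_right ?_ (by positivity)
    calc ((1 : ℝ) / 2) ^ e ≤ (1 / 2) ^ (e - 2) :=
          pow_le_pow_of_le_one (by norm_num) (by norm_num) (Nat.sub_le _ _)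
      _ ≤ m ^ (e - 2) := pow_le_pow_left₀ (by norm_num) hmhalf _
  exact lsdFin hbnn (by positivity) h1' h4 h3 hM1 hgM hs

end Pool.FOT
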