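import Pool.Agent.H22.FOT.Defs2

open MeasureTheory unitInterval Set Filter Topology

namespace Pool.FOT

open Pool.Agent.H99.LowerTail

namespace SchAux

lemma real_cs {A P F κ : ℝ} (hF : 0 ≤ F) (hFκ : F ≤ κ) (hP : 0 ≤ P) (hPF : P ≤ F)
    (h : ∀ t : ℝ, 0 ≤ A - 2 * t * P + t ^ 2 * F) : P ^ 2 ≤ κ * A := by
  have hκ : 0 ≤ κ := hF.trans hFκ
  rcases hκ.eq_or_lt with h0 | h0
  · have hF0 : F = 0 := le_antisymm (h0 ▸ hFκ) hF
    have hP0 : P = 0 := le_antisymm (hF0 ▸ hPF) hP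
    rw [hP0, ← h0]
    simp
  · have h1 := h (P / κ)
    have h2 : (P / κ) ^ 2 * F ≤ (P / κ) ^ 2 * κ := mul_le_mul_of_nonneg_left hFκ (sq_nonneg _)
    have e1 : (P / κ) ^ 2 * κ = P ^ 2 / κ := by field_simp
    have e2 : 2 * (P / κ) * P = 2 * (P ^ 2 / κ) := by ring
    rw [e1] at h2
    rw [e2] at h1
    have h3 : P ^ 2 / κ ≤ A := by linarith
    rw [div_le_iff₀ h0] at h3
    linarith

lemma wcs {Ω : Type} [MeasurableSpace Ω] (μ : Measure Ω) [IsProbabilityMeasure μ]
    {g h : Ω → ℝ} (hg : Measurable g) (hh : Measurable h) (hg1 : ∀ x, |g x| ≤ 1)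
    (hh1 : ∀ x, |h x| ≤ 1) {κ : ℝ} (hκ : ∫ x, |h x| ∂μ ≤ κ) {s : Ω → ℝ} (hs : Measurable s)
    (hs1 : ∀ x, |s x| ≤ 1) :
    (∫ x, g x * (s x * h x) ∂μ) ^ 2 ≤ κ * ∫ x, g x ^ 2 * |h x| ∂μ := by
  have bi : ∀ {k : Ω → ℝ}, Measurable k → (∀ x, |k x| ≤ 1) → Integrable k μ := by
    intro k hk hk1
    exact Integrable.of_bound hk.aestronglyMeasurable 1
      (Eventually.of_forall fun x => by rw [Real.norm_eq_abs]; exact hk1 x)
  have i1 : Integrable (fun x => g x ^ 2 * |h x|) μ := by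
    refine bi ((hg.pow_const 2).mul (by fun_prop)) fun x => ?_
    rw [abs_mul, abs_abs, abs_pow]
    exact mul_le_one₀ (pow_le_one₀ (abs_nonneg _) (hg1 x)) (abs_nonneg _) (hh1 x)
  have i2 : Integrable (fun x => |g x| * |h x|) μ := by
    refine bi (by fun_prop) fun x => ?_
    rw [abs_mul, abs_abs, abs_abs]
    exact mul_le_one₀ (hg1 x) (abs_nonneg _) (hh1 x)
  have i3 : Integrable (fun x => |h x|) μ :=
    bi (by fun_prop) fun x => by rw [abs_abs]; exact hh1 x
  have h1 : |∫ x, g x * (s x * h x) ∂μ| ≤ ∫ x, |g x| * |h x| ∂μ := by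
    refine (abs_integral_le_integral_abs).trans ?_
    refine integral_mono_of_nonneg (Eventually.of_forall fun x => abs_nonneg _) i2
      (Eventually.of_forall fun x => ?_)
    show |g x * (s x * h x)| ≤ |g x| * |h x|
    rw [abs_mul, abs_mul]
    refine mul_le_mul_of_nonneg_left ?_ (abs_nonneg _)
    exact mul_le_of_le_one_left (abs_nonneg _) (hs1 x)
  have h2 : (∫ x, |g x| * |h x| ∂μ) ^ 2 ≤ κ * ∫ x, g x ^ 2 * |h x| ∂μ := by
    refine real_cs (F := ∫ x, |h x| ∂μ) (integral_nonneg fun x => abs_nonneg _) hκ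
      (integral_nonneg fun x => mul_nonneg (abs_nonneg _) (abs_nonneg _)) ?_ ?_
    · refine integral_mono i2 i3 fun x => ?_
      exact mul_le_of_le_one_left (abs_nonneg _) (hg1 x)
    · intro t
      have h3 : 0 ≤ ∫ x, ((|g x| - t) ^ 2 * |h x|) ∂μ :=
        integral_nonneg fun x => mul_nonneg (sq_nonneg _) (abs_nonneg _)
      have h4 : ∫ x, ((|g x| - t) ^ 2 * |h x|) ∂μ =
          ∫ x, g x ^ 2 * |h x| ∂μ - 2 * t * ∫ x, |g x| * |h x| ∂μ + t ^ 2 * ∫ x, |h x| ∂μ := by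
        have e : ∀ x, (|g x| - t) ^ 2 * |h x| =
            g x ^ 2 * |h x| - 2 * t * (|g x| * |h x|) + t ^ 2 * |h x| := by
          intro x
          have := sq_abs (g x)
          rw [← this]
          ring
        simp_rw [e]
        have j1 : Integrable (fun x => 2 * t * (|g x| * |h x|)) μ := i2.const_mul _
        have j2 : Integrable (fun x => t ^ 2 * |h x|) μ := i3.const_mul _
        have j3 : Integrable (fun x => g x ^ 2 * |h x| - 2 * t * (|g x| * |h x|)) μ := i1.sub j1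
        rw [integral_add j3 j2, integral_sub i1 j1, integral_const_mul, integral_const_mul]
      rw [h4] at h3
      exact h3
  have h3 : (∫ x, g x * (s x * h x) ∂μ) ^ 2 ≤ (∫ x, |g x| * |h x| ∂μ) ^ 2 := by
    rw [← sq_abs (∫ x, g x * (s x * h x) ∂μ)]
    exact pow_le_pow_left₀ (abs_nonneg _) h1 2
  exact h3.trans h2

end SchAux

open SchAux

theorem t_sch (hPTB : PTBStmt) : SCHStmt := by
  intro Ω _ μ _ f κ hf hm hb hκ l τ hl hτ
  obtain ⟨hA, hB⟩ := hPTB Ω μ f hf hm hb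
  obtain ⟨hgm, hg1, -⟩ := hA l hl
  obtain ⟨hpm, hp1, -⟩ := hA (l ++ [τ]) (by
    intro σ' h'
    rcases List.mem_append.1 h' with h | h
    · exact hl _ h
    · exact hτ _ h)
  have hτm := (hτ τ (by simp)).1
  have hτ1 := (hτ τ (by simp)).2
  have hne : Nonempty Ω := by
    by_contra h
    rw [not_nonempty_iff] at h
    have h1 : μ = 0 := by
      apply Measure.eq_zero_of_isEmpty
    exact IsProbabilityMeasure.ne_zero μ h1
  have hκ0 : 0 ≤ κ := by
    obtain ⟨x⟩ := hne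
    exact (integral_nonneg fun y => abs_nonneg _).trans (hκ x)
  set g : Ω → Ω → ℝ := pth μ f l with hg
  -- pointwise bound
  have hrow : ∀ y, ∫ z, |f z y| ∂μ ≤ κ := fun y => by
    have e : (fun z => |f z y|) = fun z => |f y z| := by
      funext z
      rw [hf]
    rw [e]
    exact hκ y
  have hpt : ∀ x y, pth μ f (l ++ [τ]) x y ^ 2 ≤ κ * ∫ z, g x z ^ 2 * |f z y| ∂μ := by
    intro x y
    rw [hB l τ [] hl hτ (by intro σ' h'; simp at h') x y]
    exact wcs μ (hgm.comp (measurable_const.prodMk measurable_id))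
      (hm.comp (measurable_id.prodMk measurable_const)) (fun z => hg1 x z) (fun z => hb z y)
      (hrow y) hτm hτ1
  -- the triple function
  have hT : Measurable (fun w : (Ω × Ω) × Ω => g w.1.1 w.2 ^ 2 * |f w.2 w.1.2|) := by
    have m1 : Measurable (fun w : (Ω × Ω) × Ω => (w.1.1, w.2)) := by fun_prop
    have m2 : Measurable (fun w : (Ω × Ω) × Ω => (w.2, w.1.2)) := by fun_prop
    exact ((hgm.comp m1).pow_const 2).mul (continuous_abs.measurable.comp (hm.comp m2))
  have hAm : Measurable (fun w : Ω × Ω => ∫ z, g w.1 z ^ 2 * |f z w.2| ∂μ) := by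
    have h := (hT.stronglyMeasurable).integral_prod_right' (ν := μ)
    exact h.measurable
  have hT1 : ∀ x y z, |(g x z ^ 2 * |f z y|)| ≤ 1 := by
    intro x y z
    rw [abs_mul, abs_abs, abs_pow]
    exact mul_le_one₀ (pow_le_one₀ (abs_nonneg _) (hg1 x z)) (abs_nonneg _) (hb z y)
  have hA1 : ∀ w : Ω × Ω, |∫ z, g w.1 z ^ 2 * |f z w.2| ∂μ| ≤ 1 := by
    intro w
    have h := norm_integral_le_of_norm_le_const (μ := μ) (f := fun z => g w.1 z ^ 2 * |f z w.2|)
      (C := 1) (Eventually.of_forall fun z => by rw [Real.norm_eq_abs]; exact hT1 w.1 w.2 z)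
    simpa using h
  have hAi : Integrable (fun w : Ω × Ω => ∫ z, g w.1 z ^ 2 * |f z w.2| ∂μ) (μ.prod μ) :=
    Integrable.of_bound hAm.aestronglyMeasurable 1
      (Eventually.of_forall fun w => by rw [Real.norm_eq_abs]; exact hA1 w)
  have hpi : Integrable (fun w : Ω × Ω => pth μ f (l ++ [τ]) w.1 w.2 ^ 2) (μ.prod μ) := by
    refine Integrable.of_bound (hpm.pow_const 2).aestronglyMeasurable 1
      (Eventually.of_forall fun w => ?_)
    rw [Real.norm_eq_abs, abs_pow]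
    exact pow_le_one₀ (abs_nonneg _) (hp1 _ _)
  have hg2 : Measurable (fun w : Ω × Ω => g w.1 w.2 ^ 2) := hgm.pow_const 2
  have hgi : Integrable (fun w : Ω × Ω => g w.1 w.2 ^ 2) (μ.prod μ) := by
    refine Integrable.of_bound hg2.aestronglyMeasurable 1 (Eventually.of_forall fun w => ?_)
    rw [Real.norm_eq_abs, abs_pow]
    exact pow_le_one₀ (abs_nonneg _) (hg1 _ _)
  have h1 : pN μ f (l ++ [τ]) ≤
      ∫ w : Ω × Ω, κ * ∫ z, g w.1 z ^ 2 * |f z w.2| ∂μ ∂(μ.prod μ) :=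
    integral_mono hpi (hAi.const_mul κ) fun w => hpt w.1 w.2
  rw [integral_const_mul, integral_prod _ hAi] at h1
  -- swap the integrals for fixed `x`
  have h2 : ∀ x, ∫ y, ∫ z, g x z ^ 2 * |f z y| ∂μ ∂μ ≤ κ * ∫ z, g x z ^ 2 ∂μ := by
    intro x
    have hx : Measurable (fun w : Ω × Ω => g x w.2 ^ 2 * |f w.2 w.1|) := by
      have m1 : Measurable (fun w : Ω × Ω => ((x, w.1), w.2)) := by fun_prop
      exact hT.comp m1
    rw [integral_integral_swap (f := fun y z => g x z ^ 2 * |f z y|)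
      (Integrable.of_bound hx.aestronglyMeasurable 1 (Eventually.of_forall fun w => by
        rw [Real.norm_eq_abs]; exact hT1 x w.1 w.2))]
    rw [← integral_const_mul]
    have hi : Integrable (fun z => g x z ^ 2) μ := by
      have m1 : Measurable (fun z => g x z ^ 2) :=
        (hgm.comp (measurable_const.prodMk measurable_id)).pow_const 2
      refine Integrable.of_bound m1.aestronglyMeasurable 1 (Eventually.of_forall fun w => ?_)
      rw [Real.norm_eq_abs, abs_pow]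
      exact pow_le_one₀ (abs_nonneg _) (hg1 _ _)
    refine integral_mono_of_nonneg (Eventually.of_forall fun z => integral_nonneg fun y =>
      mul_nonneg (sq_nonneg _) (abs_nonneg _)) (hi.const_mul κ) (Eventually.of_forall fun z => ?_)
    show ∫ y, g x z ^ 2 * |f z y| ∂μ ≤ κ * g x z ^ 2
    rw [integral_const_mul, mul_comm κ]
    exact mul_le_mul_of_nonneg_left (hκ z) (sq_nonneg _)
  have h3 : ∫ x, ∫ y, ∫ z, g x z ^ 2 * |f z y| ∂μ ∂μ ∂μ ≤ κ * pN μ f l := by
    have h4 : ∫ x, ∫ y, ∫ z, g x z ^ 2 * |f z y| ∂μ ∂μ ∂μ ≤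
        ∫ x, κ * ∫ z, g x z ^ 2 ∂μ ∂μ :=
      integral_mono hAi.integral_prod_left (hgi.integral_prod_left.const_mul κ) h2
    rw [integral_const_mul] at h4
    rw [pN, integral_prod _ hgi]
    exact h4
  calc pN μ f (l ++ [τ]) ≤ κ * ∫ x, ∫ y, ∫ z, g x z ^ 2 * |f z y| ∂μ ∂μ ∂μ := h1
    _ ≤ κ * (κ * pN μ f l) := mul_le_mul_of_nonneg_left h3 hκ0
    _ = κ ^ 2 * pN μ f l := by ring

end Pool.FOT
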