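import Pool.Agent.H22.FOT.All
import Pool.Agent.H22.FOG.Fin
import Pool.Agent.H22.FOG.LSD
import Pool.Agent.H22.FOG.SCH
import Pool.Agent.H22.FOG.CYB
import Pool.Agent.H2.FOG.CYE
import Pool.Agent.H2.FOG.EGD
import Pool.Agent.H2.FOG.MN2
import Pool.Agent.H3.FOG.CYO
import Pool.Agent.H3.FOG.RG2
import Pool.Agent.H34.FOG.CHR
import Pool.Agent.H34.FOG.GEV
import Pool.Agent.H34.FOG.K23
import Pool.Agent.H34.FOG.LF2
import Pool.Agent.H45.FOG.CLS
import Pool.Agent.H50.FOG.Cyc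
import Pool.Agent.H61.FOG.CYI
import Pool.Agent.H61.FOG.CYV
import Pool.Agent.H61.FOG.GN2
import Pool.Agent.H61.FOG.PTB
import Pool.Agent.H70.FOG.JEN
import Pool.Agent.H70.FOG.MRL
import Pool.Agent.H70.FOG.MTC
import Pool.Agent.H70.FOG.RWL
import Pool.Agent.H97.FOG.NLE

/-! Assembly of the board `fog`. -/

namespace Pool.FOT

theorem h_nle : NLEStmt := t_nle t_ptb
theorem h_sch : SCHStmt := t_sch t_ptb
theorem h_cye : CYEStmt := t_cye t_ptb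
theorem h_cyb : CYBStmt := t_cyb t_cyi h_nle h_sch
theorem h_cya : CYAStmt := t_cya t_cyv h_cyb
theorem h_cyf : CYFStmt := t_cyf t_cyv h_cyb t_evp
theorem h_cyl : CYLStmt := t_cyl t_cyv h_cyb t_upd
theorem h_k23 : K23Stmt := t_k23 h_nle t_upd
theorem h_cyo : CYOStmt := t_cyo h_cye
theorem h_chr : CHRStmt := t_chr t_evt
theorem h_lf2 : LF2Stmt := t_lf2 t_upd
theorem h_rg2 : RG2Stmt :=
  t_rg2 t_exp h_sm1 h_sm2 h_chr h_lf2 h_cya h_cyf h_cyl h_k23 h_cyo t_cls t_for t_gev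
theorem h_lsd : LSDStmt := t_lsd h_rg2 t_mtc t_gn2 t_mrl t_rwl h_row t_bad
theorem h_egd : EGDStmt := t_egd h_lsd t_jen
theorem h_mn2 : MN2Stmt := t_mn2 h_main h_egd
theorem h_fin : FinStmt := t_fin h_mn2

end Pool.FOT
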